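import Pool.Agent.TH402.FB.Col

/-!
# A counterexample has a counterexample of Banach density zero in a Bohr neighbourhood of zero
-/

set_option autoImplicit false

namespace Pool.Agent.Results.MP_f6c4b6_nt.NullCounterexamples

open Filter

/-- chromatically intersective: every finite colouring of the natural numbers has two numbers of the same
colour whose positive difference is in `R` -/
def Chromatic (R : Set ℕ) : Prop := ∀ (k : ℕ) (c : ℕ → Fin k), ∃ x y : ℕ, y < x ∧ c x = c y ∧ x - y ∈ R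

/-- chromatically prime intersective: every finite colouring has two primes of the same colour whose positive
difference is in `R` -/
def PrimeChromatic (R : Set ℕ) : Prop := ∀ (k : ℕ) (c : ℕ → Fin k), ∃ p q : ℕ, p.Prime ∧ q.Prime ∧
  q < p ∧ c p = c q ∧ p - q ∈ R

/-- the Bohr neighbourhood of zero with frequencies `Θ` and radius `ρ`: the `n` such that for every `θ` in
`Θ` the distance of `n * θ` to the nearest integer is less than `ρ` -/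
def Bohr (Θ : Finset ℝ) (ρ : ℝ) : Set ℕ := {n | ∀ θ ∈ Θ, |(n : ℝ) * θ - round ((n : ℝ) * θ)| < ρ}

/-- upper Banach density zero -/
def BanachNull (R : Set ℕ) : Prop := ∀ ε : ℝ, 0 < ε → ∃ L₀ : ℕ, ∀ L : ℕ, L₀ ≤ L → ∀ u : ℕ,
  ({r : ℕ | u < r ∧ r ≤ u + L ∧ r ∈ R}.ncard : ℝ) ≤ ε * L

theorem bohr_mono {Θ Θ' : Finset ℝ} {ρ ρ' : ℝ} (h : Θ ⊆ Θ') (h' : ρ' ≤ ρ) : Bohr Θ' ρ' ⊆ Bohr Θ ρ :=
  fun _ hn θ hθ => (hn θ (h hθ)).trans_le h'

/-- the part in a Bohr neighbourhood of zero of a chromatically intersective set is one -/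
theorem chromatic_bohr {R : Set ℕ} (hR : Chromatic R) (Θ : Finset ℝ) (ρ : ℝ) (hρ : 0 < ρ) :
    Chromatic (R ∩ Bohr Θ ρ) := by
  classical
  intro k c
  obtain ⟨N, hN⟩ := exists_nat_gt (1 / ρ)
  have hN0 : (0 : ℝ) < N := lt_trans (by positivity) hN
  have hN1 : 1 < (N : ℝ) * ρ := by
    rwa [div_lt_iff₀ hρ] at hN
  have hcell : ∀ (n : ℕ) (θ : ℝ), ⌊(N : ℝ) * Int.fract ((n : ℝ) * θ)⌋₊ < N := by
    intro n θ
    rw [Nat.floor_lt (mul_nonneg hN0.le (Int.fract_nonneg _))]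
    have := Int.fract_lt_one ((n : ℝ) * θ)
    nlinarith
  obtain ⟨e⟩ : Nonempty ((Fin k × ({θ : ℝ // θ ∈ Θ} → Fin N)) ≃
      Fin (Fintype.card (Fin k × ({θ : ℝ // θ ∈ Θ} → Fin N)))) := ⟨Fintype.equivFin _⟩
  obtain ⟨x, y, hyx, hc, hxy⟩ := hR _ (fun n => e (c n, fun θ => ⟨_, hcell n θ⟩))
  have hc' := e.injective hc
  rw [Prod.mk.injEq] at hc'
  refine ⟨x, y, hyx, hc'.1, hxy, ?_⟩
  intro θ hθ
  have h1 := congrFun hc'.2 ⟨θ, hθ⟩
  rw [Fin.mk.injEq] at h1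
  have a1 := Nat.floor_le (mul_nonneg hN0.le (Int.fract_nonneg ((x : ℝ) * θ)))
  have a2 := Nat.lt_floor_add_one ((N : ℝ) * Int.fract ((x : ℝ) * θ))
  have b1 := Nat.floor_le (mul_nonneg hN0.le (Int.fract_nonneg ((y : ℝ) * θ)))
  have b2 := Nat.lt_floor_add_one ((N : ℝ) * Int.fract ((y : ℝ) * θ))
  have h1' : (⌊(N : ℝ) * Int.fract ((x : ℝ) * θ)⌋₊ : ℝ) = ⌊(N : ℝ) * Int.fract ((y : ℝ) * θ)⌋₊ := by
    exact_mod_cast h1
  have h2 : |(N : ℝ) * (Int.fract ((x : ℝ) * θ) - Int.fract ((y : ℝ) * θ))| < 1 := by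
    rw [abs_lt]
    constructor <;> linarith
  have h3 : |Int.fract ((x : ℝ) * θ) - Int.fract ((y : ℝ) * θ)| < ρ := by
    rw [abs_mul, abs_of_pos hN0] at h2
    by_contra hcon
    push Not at hcon
    nlinarith
  have h4 : ((x - y : ℕ) : ℝ) * θ - ((⌊(x : ℝ) * θ⌋ - ⌊(y : ℝ) * θ⌋ : ℤ) : ℝ) =
      Int.fract ((x : ℝ) * θ) - Int.fract ((y : ℝ) * θ) := by
    rw [Nat.cast_sub hyx.le]
    unfold Int.fract
    push_cast
    ring
  calc |((x - y : ℕ) : ℝ) * θ - round (((x - y : ℕ) : ℝ) * θ)|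
      ≤ |((x - y : ℕ) : ℝ) * θ - ((⌊(x : ℝ) * θ⌋ - ⌊(y : ℝ) * θ⌋ : ℤ) : ℝ)| := round_le _ _
    _ < ρ := by rw [h4]; exact h3

/-- Let `R` be chromatically intersective but not chromatically prime intersective. Then for all Bohr
neighbourhoods `B` of zero in a suitable one, `R ∩ B` is again such a set and has upper Banach density zero. -/
theorem result (R : Set ℕ) (hR : Chromatic R) (hP : ¬ PrimeChromatic R) :
    ∃ (Θ₀ : Finset ℝ) (ρ₀ : ℝ), 0 < ρ₀ ∧ ∀ (Θ : Finset ℝ) (ρ : ℝ), Θ₀ ⊆ Θ → 0 < ρ → ρ ≤ ρ₀ →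
      BanachNull (R ∩ Bohr Θ ρ) ∧ Chromatic (R ∩ Bohr Θ ρ) ∧ ¬ PrimeChromatic (R ∩ Bohr Θ ρ) := by
  classical
  have hP' := hP
  unfold PrimeChromatic at hP'
  push Not at hP'
  obtain ⟨k, c, hc⟩ := hP'
  obtain ⟨Θ₀, ρ₀, hρ₀, H⟩ := Pool.Agent.TH402.FB.colour 1 0 k one_pos (by norm_num) c
  refine ⟨Θ₀, ρ₀, hρ₀, fun Θ ρ hΘ hρ hρρ => ⟨fun ε hε => ?_, chromatic_bohr hR Θ ρ hρ, fun h => hP ?_⟩⟩
  · obtain ⟨L₀, h⟩ := H ε hε
    refine ⟨L₀, fun L hL u => le_trans ?_ (h L hL u)⟩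
    rw [Nat.cast_le]
    refine Set.ncard_le_ncard ?_ ((Set.finite_le_nat (u + L)).subset fun d hd => hd.2.1)
    rintro d ⟨h1, h2, h3, h4⟩
    refine ⟨h1, h2, bohr_mono hΘ hρρ h4, fun h5 => ?_⟩
    obtain ⟨x, h6, h7⟩ := ((h5 (1 / 2) (by norm_num)).and_eventually (eventually_gt_atTop 0)).exists
    have h8 : (0 : ℝ) < x ^ ((1 : ℝ) - 1 / 2) := Real.rpow_pos_of_pos h7 _
    have h9 := h8.trans_le h6
    have h10 := Set.nonempty_of_ncard_ne_zero (fun h => by rw [h] at h9; simp at h9)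
    obtain ⟨p, e1, e2, e3, e4, e5, e6⟩ := h10
    exact hc (p + d) p e2 e1 (by omega) e5.symm (by rw [Nat.add_sub_cancel_left]; exact h3)
  · intro k' c'
    obtain ⟨p, q, e1, e2, e3, e4, e5⟩ := h k' c'
    exact ⟨p, q, e1, e2, e3, e4, e5.1⟩

end Pool.Agent.Results.MP_f6c4b6_nt.NullCounterexamples
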